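import Pool.Agent.helper28.GF.Graded

set_option autoImplicit false

/-!
# Two-dimensional linear groups over graded rings in the class of Farrell-Jones groups

`FJClosed P` says that the class `P` contains the solvable groups, has the inheritance properties
which the problem file lists for the class of Farrell-Jones groups, and the extension property,
which is also a known property of that class: a group `G` with a homomorphism `f : G → Q` to a group
of the class is in the class if the preimages of the virtually cyclic subgroups of `Q` are.

Theorem. Let `A` be a commutative ring graded by the natural numbers, for example a polynomial ring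
`A₀[X₁, X₂, …]`, and `G` a subgroup of `GL₂(A)`. If the image of `G` in `GL₂(A₀)` is in the class,
then `G` is in the class.

Outline of the proof. The grading gives a homomorphism `A → A[T]`, `a ↦ a T^n` for `a` of degree
`n`, which is split by `T = 1` and becomes the projection to `A₀` for `T = 0`. So it suffices to
treat subgroups `G` of `GL₂(A[T])` and `T = 0`. For finitely generated `G` one can assume that `A`
is a finitely generated ring, and by the extension property the constant terms of the elements of
`G` are the powers of a matrix `q`. The homomorphism from `G` to the product of the groups
`GL₂(K_p[T])`, `K_p` the field of fractions of `A / p`, `p` a minimal prime, has solvable kernel,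
which reduces everything to the case of a field `K`. There `GL₂(K[T])` is, by the Euclidean
algorithm, the semidirect product of `GL₂(K)` and the congruence subgroup `N` of `T = 0`, and `N` is
the free product of the abelian groups `U_c`, `c ∈ P¹(K)`, of unipotent matrices in `N` which fix
the line `c`: the degree of the entries of a reduced word is the sum of the degrees of the letters.
It remains to see that `N ⟨q⟩` is in the class for `q ∈ GL₂(K)`, which permutes the `U_c`. If a
power of `q` is scalar, there is a subgroup `N × ℤ` or `N` of finite index. If not, replace `q` by a
power `t` such that the orbits of `t` on `P¹(K)` are infinite or consist of one of at most two fixed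
points. The groups `U_c` in the infinite orbits contribute only free factors: `N ⟨t⟩` embeds in a
free product of `M₀ ⟨t⟩` and groups `U_c`, where `M₀` is generated by the `U_c` for the fixed points.
For two fixed points `t` acts on the first group `U ≅ T K[T]` by multiplication by some `λ ∈ K`
which is not a root of unity. Under the homomorphism from `(U * U') ⋊ ⟨t⟩` to the solvable group
`U ⋊ ⟨t⟩` the preimages of cyclic groups are contained in groups `(*_{u ∈ U} U') ⋊ ⟨s⟩`, and as
`1 - λ^k` is invertible, `s` has one fixed point on `U` and infinite orbits outside, so that they
are in the class by the same argument.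
-/

namespace Pool.Agent.helper28.Variants.GL2GradedRings

open Pool.Agent.helper16.FJ Pool.Agent.helper28.GF Matrix

/-- A class of (discrete) groups with known properties of the class of Farrell-Jones groups: it
contains the solvable groups, it is closed under subgroups, finite direct products, free products,
finite-index overgroups, and colimits over directed systems with arbitrary structure maps, and it
has the extension property. -/
structure FJClosed (P : ∀ (G : Type) [Group G], Prop) : Prop where
  /-- solvable groups -/
  solvable : ∀ (G : Type) [Group G], Group.IsSolvable G → P G
  /-- subgroups -/
  subgroup : ∀ (G : Type) [Group G], P G → ∀ H : Subgroup G, P H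
  /-- direct products -/
  prod : ∀ (G H : Type) [Group G] [Group H], P G → P H → P (G × H)
  /-- free products -/
  coprod : ∀ (G H : Type) [Group G] [Group H], P G → P H → P (Monoid.Coprod G H)
  /-- overgroups of finite index -/
  overgroup : ∀ (G : Type) [Group G] (H : Subgroup G), H.FiniteIndex → P H → P G
  /-- directed colimits: `L` with the maps `φ i` is a colimit of the directed system `(G, f)` when
  the `φ i` are compatible with the `f i j`, jointly surjective, and an element of `G i` dies in
  `L` only if it dies in some `G j`. -/
  colim : ∀ (ι : Type) [Preorder ι] [Nonempty ι] [IsDirectedOrder ι]
    (G : ι → Type) [∀ i, Group (G i)] (f : ∀ i j, i ≤ j → G i →* G j)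
    (L : Type) [Group L] (φ : ∀ i, G i →* L),
    (∀ i x, f i i le_rfl x = x) →
    (∀ i j k (hij : i ≤ j) (hjk : j ≤ k) x, f j k hjk (f i j hij x) = f i k (hij.trans hjk) x) →
    (∀ i j (h : i ≤ j) x, φ j (f i j h x) = φ i x) →
    (∀ y : L, ∃ i x, φ i x = y) →
    (∀ i x, φ i x = 1 → ∃ j, ∃ h : i ≤ j, f i j h x = 1) →
    (∀ i, P (G i)) → P L
  /-- the extension property: if `Q` and the preimages of all virtually cyclic subgroups of `Q`
  are in the class, then the source of the homomorphism is in the class -/
  extension : ∀ (G Q : Type) [Group G] [Group Q] (f : G →* Q), P Q →
    (∀ C : Subgroup Q, (∃ Z : Subgroup C, Z.FiniteIndex ∧ IsCyclic Z) → P (C.comap f)) → P G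

theorem FJClosed.cls {P : ∀ (G : Type) [Group G], Prop} (h : FJClosed P) : Cls P where
  finite := fun G _ hG => by
    refine h.overgroup G ⊥ ⟨?_⟩ (h.solvable _ ?_)
    · exact Subgroup.index_ne_zero_of_finite
    · exact Group.isSolvable_of_comm (fun a b => Subsingleton.elim _ _)
  int := h.solvable _ (Group.isSolvable_of_comm (fun a b => mul_comm a b))
  subgroup := h.subgroup
  prod := h.prod
  coprod := h.coprod
  overgroup := h.overgroup
  colim := h.colim
  solvable := h.solvable
  extension := h.extension

/-- Let `P` be a class of groups with the properties `FJClosed` of the class of Farrell-Jones
groups. Let `A` be a commutative ring with a grading `𝒜` by the natural numbers and `G` a subgroup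
of `GL₂(A)`. If the image of `G` under the projection of `A` to its homogeneous component of degree
`0` is in the class, then `G` is in the class. -/
theorem result (P : ∀ (G : Type) [Group G], Prop) (hP : FJClosed P) (A σ : Type) [CommRing A]
    [SetLike σ A] [AddSubmonoidClass σ A] (𝒜 : ℕ → σ) [GradedRing 𝒜] (G : Subgroup (GL (Fin 2) A))
    (hG : P (G.map (Matrix.GeneralLinearGroup.map (GradedRing.projZeroRingHom 𝒜)))) :
    P G :=
  graded_case hP.cls 𝒜 G hG

end Pool.Agent.helper28.Variants.GL2GradedRings
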